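import Mathlib

/-!
# The second polynomial numerical index of `L_1[0,1]`, real and complex
-/

open MeasureTheory

namespace Pool.Agent.Results.MP_6cf06e_an.IntegrableFunctions

section Defs

variable (𝕜 X : Type) [RCLike 𝕜] [NormedAddCommGroup X] [NormedSpace 𝕜 X]

/-- The continuous `k`-homogeneous polynomials `P : X → X`. -/
def HomPoly (k : ℕ) : Set (X → X) :=
  {P | ∃ A : ContinuousMultilinearMap 𝕜 (fun _ : Fin k => X) X, ∀ x, P x = A (fun _ => x)}

variable {X} in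
/-- The norm of a polynomial: the supremum of `‖P x‖` over the unit sphere. -/
noncomputable def polyNorm (P : X → X) : ℝ := sSup {r | ∃ x : X, ‖x‖ = 1 ∧ r = ‖P x‖}

variable {X} in
/-- The numerical radius of `P`: the supremum of `|x'(P x)|` over all `x` in the unit sphere of `X`
and `x'` in the unit sphere of the dual space with `x'(x) = 1`. -/
noncomputable def numRadius (P : X → X) : ℝ :=
  sSup {r | ∃ (x : X) (x' : StrongDual 𝕜 X), ‖x‖ = 1 ∧ ‖x'‖ = 1 ∧ x' x = 1 ∧ r = ‖x' (P x)‖}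

/-- The `k`-th polynomial numerical index of `X`: the infimum of the numerical radii of the
`k`-homogeneous polynomials of norm one. -/
noncomputable def numIndex (k : ℕ) : ℝ :=
  sInf {r | ∃ P ∈ HomPoly 𝕜 X k, polyNorm P = 1 ∧ r = numRadius 𝕜 P}

end Defs

/-- Lebesgue measure on `[0,1]`. -/
noncomputable abbrev lam : Measure ℝ := volume.restrict (Set.Icc 0 1)

/-- The Banach space `L_1[0,1]` over `𝕜`. -/
abbrev L1 (𝕜 : Type) [RCLike 𝕜] : Type := Lp 𝕜 1 lam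

/-- A bounded bilinear map as a multilinear map. -/
noncomputable def bil {𝕜 X : Type} [RCLike 𝕜] [NormedAddCommGroup X] [NormedSpace 𝕜 X]
    (T : X →L[𝕜] X →L[𝕜] X) : ContinuousMultilinearMap 𝕜 (fun _ : Fin 2 => X) X where
  toFun v := T (v 0) (v 1)
  map_update_add' v i x y := by
    fin_cases i <;> simp
  map_update_smul' v i c x := by
    fin_cases i <;> simp
  cont := by fun_prop

section

variable {𝕜 : Type} [RCLike 𝕜]

/-- Restriction of a function to the measurable set `A` (extended by zero). -/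
noncomputable def R (A : Set ℝ) (hA : MeasurableSet A) : L1 𝕜 →L[𝕜] L1 𝕜 :=
  LinearMap.mkContinuous
    { toFun := fun f => ((Lp.memLp f).indicator hA).toLp (A.indicator f)
      map_add' := fun f g => by
        rw [← MemLp.toLp_add]
        refine (MemLp.toLp_eq_toLp_iff _ _).2 ?_
        filter_upwards [Lp.coeFn_add f g] with t ht
        by_cases h : t ∈ A
        · rw [Set.indicator_of_mem h, ht, Pi.add_apply, Pi.add_apply, Set.indicator_of_mem h,
            Set.indicator_of_mem h]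
        · rw [Set.indicator_of_notMem h, Pi.add_apply, Set.indicator_of_notMem h,
            Set.indicator_of_notMem h, add_zero]
      map_smul' := fun c f => by
        rw [RingHom.id_apply, ← MemLp.toLp_const_smul]
        refine (MemLp.toLp_eq_toLp_iff _ _).2 ?_
        filter_upwards [Lp.coeFn_smul c f] with t ht
        by_cases h : t ∈ A
        · rw [Set.indicator_of_mem h, ht, Pi.smul_apply, Pi.smul_apply, Set.indicator_of_mem h]
        · rw [Set.indicator_of_notMem h, Pi.smul_apply, Set.indicator_of_notMem h, smul_zero] }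
    1 (fun f => by
      rw [one_mul]
      change ‖((Lp.memLp f).indicator hA).toLp (A.indicator f)‖ ≤ ‖f‖
      rw [Lp.norm_toLp, Lp.norm_def]
      exact ENNReal.toReal_mono (Lp.eLpNorm_ne_top f) (eLpNorm_indicator_le _))

theorem R_ae (A : Set ℝ) (hA : MeasurableSet A) (f : L1 𝕜) :
    (R A hA f : ℝ → 𝕜) =ᵐ[lam] A.indicator f := by
  have h : MemLp (A.indicator f) 1 lam := (Lp.memLp f).indicator hA
  have h2 : R A hA f = h.toLp (A.indicator f) := rfl
  rw [h2]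
  exact h.coeFn_toLp

theorem R_add_R_compl (A : Set ℝ) (hA : MeasurableSet A) (f : L1 𝕜) :
    R A hA f + R Aᶜ hA.compl f = f := by
  refine Lp.ext ?_
  filter_upwards [Lp.coeFn_add (R A hA f) (R Aᶜ hA.compl f), R_ae A hA f, R_ae Aᶜ hA.compl f]
    with t h1 h2 h3
  rw [h1, Pi.add_apply, h2, h3]
  by_cases h : t ∈ A <;> simp [h]

theorem norm_R_add (A : Set ℝ) (hA : MeasurableSet A) (f : L1 𝕜) :
    ‖R A hA f‖ + ‖R Aᶜ hA.compl f‖ = ‖f‖ := by
  rw [L1.norm_eq_integral_norm, L1.norm_eq_integral_norm, L1.norm_eq_integral_norm,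
    ← integral_add (L1.integrable_coeFn _).norm (L1.integrable_coeFn _).norm]
  refine integral_congr_ae ?_
  filter_upwards [R_ae A hA f, R_ae Aᶜ hA.compl f] with t h2 h3
  rw [h2, h3]
  by_cases h : t ∈ A <;> simp [h]

theorem R_R (A : Set ℝ) (hA : MeasurableSet A) (f : L1 𝕜) : R A hA (R A hA f) = R A hA f := by
  refine Lp.ext ?_
  filter_upwards [R_ae A hA (R A hA f), R_ae A hA f] with t h1 h2
  rw [h1]
  by_cases h : t ∈ A
  · rw [Set.indicator_of_mem h]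
  · rw [Set.indicator_of_notMem h, h2, Set.indicator_of_notMem h]

theorem R_R_compl (A : Set ℝ) (hA : MeasurableSet A) (f : L1 𝕜) :
    R A hA (R Aᶜ hA.compl f) = 0 := by
  refine Lp.ext ?_
  filter_upwards [R_ae A hA (R Aᶜ hA.compl f), R_ae Aᶜ hA.compl f, Lp.coeFn_zero 𝕜 1 lam]
    with t h1 h2 h3
  rw [h1, h3]
  by_cases h : t ∈ A
  · rw [Set.indicator_of_mem h, h2, Set.indicator_of_notMem (by simpa using h)]
    rfl
  · rw [Set.indicator_of_notMem h]
    rfl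

/-- The interval `(-∞, 1/2]`. -/
def A : Set ℝ := Set.Iic (1 / 2)

theorem hA : MeasurableSet A := measurableSet_Iic

/-- Restriction to `[0, 1/2]`. -/
noncomputable def RA : L1 𝕜 →L[𝕜] L1 𝕜 := R A hA

/-- Restriction to `(1/2, 1]`. -/
noncomputable def RB : L1 𝕜 →L[𝕜] L1 𝕜 := R Aᶜ hA.compl

theorem RA_RA (f : L1 𝕜) : RA (RA f) = RA f := R_R _ _ _

theorem RB_RB (f : L1 𝕜) : RB (RB f) = RB f := R_R _ _ _

theorem RA_RB (f : L1 𝕜) : RA (RB f) = 0 := R_R_compl _ _ _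

theorem RB_RA (f : L1 𝕜) : RB (RA f) = 0 := by
  have h := R_R_compl Aᶜ hA.compl f
  have h2 : R Aᶜᶜ hA.compl.compl f = RA f := by
    simp only [RA, compl_compl]
  rw [h2] at h
  exact h

theorem add_eq (f : L1 𝕜) : RA f + RB f = f := R_add_R_compl _ _ _

theorem norm_add_eq (f : L1 𝕜) : ‖RA f‖ + ‖RB f‖ = ‖f‖ := norm_R_add _ _ _

/-- The integral over `[0,1]`. -/
noncomputable def In : StrongDual 𝕜 (L1 𝕜) := L1.integralCLM' 𝕜

theorem In_apply (f : L1 𝕜) : In f = ∫ t, f t ∂lam := by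
  rw [← L1.integral_eq_integral, L1.integral_eq' 𝕜]
  rfl

theorem norm_In_le (f : L1 𝕜) : ‖In f‖ ≤ ‖f‖ := by
  rw [In_apply, L1.norm_eq_integral_norm]
  exact norm_integral_le_integral_norm _

/-- The functional `u / 2 + 2 v`, where `u` and `v` are the integrals over `[0, 1/2]` and
`(1/2, 1]`. -/
noncomputable def psi1 : StrongDual 𝕜 (L1 𝕜) :=
  (1 / 2 : 𝕜) • In.comp RA + (2 : 𝕜) • In.comp RB

/-- The functional `- (v / 2 + u)`. -/
noncomputable def psi2 : StrongDual 𝕜 (L1 𝕜) :=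
  -((1 / 2 : 𝕜) • In.comp RB + In.comp RA)

/-- The polynomial `P f = (u / 2 + 2 v) f 1_[0,1/2] - (v / 2 + u) f 1_(1/2,1]`. -/
noncomputable def P (f : L1 𝕜) : L1 𝕜 := psi1 f • RA f + psi2 f • RB f

theorem psi1_apply (f : L1 𝕜) : psi1 f = 1 / 2 * In (RA f) + 2 * In (RB f) := rfl

theorem psi2_apply (f : L1 𝕜) : psi2 f = -(1 / 2 * In (RB f) + In (RA f)) := rfl

theorem homPoly_P : P ∈ HomPoly 𝕜 (L1 𝕜) 2 :=
  ⟨bil (psi1.smulRight RA + psi2.smulRight RB), fun _ => rfl⟩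

theorem norm_P (f : L1 𝕜) : ‖P f‖ = ‖psi1 f‖ * ‖RA f‖ + ‖psi2 f‖ * ‖RB f‖ := by
  have h1 : RA (P f) = psi1 f • RA f := by
    rw [P, map_add, map_smul, map_smul, RA_RA, RA_RB, smul_zero, add_zero]
  have h2 : RB (P f) = psi2 f • RB f := by
    rw [P, map_add, map_smul, map_smul, RB_RB, RB_RA, smul_zero, zero_add]
  rw [← norm_add_eq (P f), h1, h2, norm_smul, norm_smul]

theorem norm_P_le (f : L1 𝕜) (hf : ‖f‖ = 1) : ‖P f‖ ≤ 1 := by
  rw [norm_P]
  have hab := norm_add_eq f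
  rw [hf] at hab
  have ha := norm_nonneg (RA f)
  have hb := norm_nonneg (RB f)
  have hu := norm_In_le (RA f)
  have hv := norm_In_le (RB f)
  have h1 : ‖psi1 f‖ ≤ ‖RA f‖ / 2 + 2 * ‖RB f‖ := by
    rw [psi1_apply]
    refine (norm_add_le _ _).trans ?_
    rw [norm_mul, norm_mul]
    simp only [norm_div, norm_one, RCLike.norm_ofNat]
    linarith
  have h2 : ‖psi2 f‖ ≤ ‖RB f‖ / 2 + ‖RA f‖ := by
    rw [psi2_apply, norm_neg]
    refine (norm_add_le _ _).trans ?_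
    rw [norm_mul]
    simp only [norm_div, norm_one, RCLike.norm_ofNat]
    linarith
  have h3 : ‖psi1 f‖ * ‖RA f‖ ≤ (‖RA f‖ / 2 + 2 * ‖RB f‖) * ‖RA f‖ :=
    mul_le_mul_of_nonneg_right h1 ha
  have h4 : ‖psi2 f‖ * ‖RB f‖ ≤ (‖RB f‖ / 2 + ‖RA f‖) * ‖RB f‖ :=
    mul_le_mul_of_nonneg_right h2 hb
  nlinarith [sq_nonneg (‖RA f‖ - ‖RB f‖)]

/-- The scalar inequality behind the bound of the numerical radius. -/
theorem scalar_le (a b : ℝ) (ha : 0 ≤ a) (hb : 0 ≤ b) (hab : a + b = 1) :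
    a * |a / 2 - b| + b * |2 * a - b / 2| ≤ 1 / 2 := by
  obtain rfl : b = 1 - a := by linarith
  rcases abs_cases (a / 2 - (1 - a)) with ⟨h1, h1'⟩ | ⟨h1, h1'⟩ <;>
    rcases abs_cases (2 * a - (1 - a) / 2) with ⟨h2, h2'⟩ | ⟨h2, h2'⟩ <;>
    rw [h1, h2] <;> nlinarith [sq_nonneg (2 * a - 1), sq_nonneg (1 - a), mul_nonneg ha hb]

/-- If `p + q = 1 = a + b` and `|p| ≤ a`, `|q| ≤ b`, then `p = a` and `q = b`. -/
theorem split_eq (p q : 𝕜) (a b : ℝ) (hpq : p + q = 1) (hab : a + b = 1) (hp : ‖p‖ ≤ a)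
    (hq : ‖q‖ ≤ b) : p = (a : 𝕜) ∧ q = (b : 𝕜) := by
  have h1 : RCLike.re p + RCLike.re q = 1 := by
    rw [← map_add, hpq, RCLike.one_re]
  have h2 : RCLike.re p ≤ ‖p‖ := RCLike.re_le_norm p
  have h3 : RCLike.re q ≤ ‖q‖ := RCLike.re_le_norm q
  have h4 : RCLike.re p = a := by linarith
  have h5 : RCLike.re q = b := by linarith
  have h6 : ∀ (z : 𝕜) (c : ℝ), RCLike.re z = c → ‖z‖ ≤ c → z = (c : 𝕜) := by
    intro z c h7 h8
    have h9 : ‖z‖ ^ 2 = RCLike.re z ^ 2 + RCLike.im z ^ 2 := by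
      rw [← RCLike.normSq_eq_def', RCLike.normSq_apply]
      ring
    have h10 : RCLike.im z = 0 := by
      have hc : 0 ≤ c := (norm_nonneg z).trans h8
      have : RCLike.im z ^ 2 ≤ 0 := by
        rw [h7] at h9
        nlinarith [norm_nonneg z]
      exact pow_eq_zero_iff (two_ne_zero) |>.1 (le_antisymm this (sq_nonneg _))
    rw [← RCLike.re_add_im z, h7, h10]
    simp
  exact ⟨h6 p a h4 hp, h6 q b h5 hq⟩

theorem numRadius_P_le (f : L1 𝕜) (x' : StrongDual 𝕜 (L1 𝕜)) (hf : ‖f‖ = 1) (hx : ‖x'‖ = 1)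
    (hxf : x' f = 1) : ‖x' (P f)‖ ≤ 1 / 2 := by
  have hle : ∀ g : L1 𝕜, ‖x' g‖ ≤ ‖g‖ := fun g => by
    simpa [hx] using x'.le_opNorm g
  have hab := norm_add_eq f
  rw [hf] at hab
  have hsum : x' (RA f) + x' (RB f) = 1 := by rw [← map_add, add_eq, hxf]
  obtain ⟨h1, h2⟩ := split_eq _ _ _ _ hsum hab (hle _) (hle _)
  rw [P, map_add, map_smul, map_smul, h1, h2, psi1_apply, psi2_apply]
  set a := ‖RA f‖ with ha
  set b := ‖RB f‖ with hb
  have hu : ‖In (RA f)‖ ≤ a := norm_In_le (RA f)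
  have hv : ‖In (RB f)‖ ≤ b := norm_In_le (RB f)
  have h3 : (1 / 2 * In (RA f) + 2 * In (RB f)) • (a : 𝕜) +
      -(1 / 2 * In (RB f) + In (RA f)) • (b : 𝕜) =
      In (RA f) * ((a / 2 - b : ℝ) : 𝕜) + In (RB f) * ((2 * a - b / 2 : ℝ) : 𝕜) := by
    simp only [smul_eq_mul]
    push_cast
    ring
  rw [h3]
  refine (norm_add_le _ _).trans ?_
  rw [norm_mul, norm_mul, RCLike.norm_ofReal, RCLike.norm_ofReal]
  refine le_trans ?_ (scalar_le a b (norm_nonneg _) (norm_nonneg _) hab)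
  gcongr

/-- The constant function `1`. -/
noncomputable def one : L1 𝕜 := indicatorConstLp 1 MeasurableSet.univ (by simp) (1 : 𝕜)

theorem R_one (A : Set ℝ) (hA : MeasurableSet A) :
    R A hA (one : L1 𝕜) = indicatorConstLp 1 hA (measure_ne_top _ _) (1 : 𝕜) := by
  refine Lp.ext ?_
  filter_upwards [R_ae A hA (one : L1 𝕜), indicatorConstLp_coeFn (μ := lam) (p := 1) (s := A)
    (hs := hA) (hμs := measure_ne_top _ _) (c := (1 : 𝕜)),
    indicatorConstLp_coeFn (μ := lam) (p := 1) (s := Set.univ)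
    (hs := MeasurableSet.univ) (hμs := by simp) (c := (1 : 𝕜))] with t h1 h2 h3
  rw [h1, h2]
  by_cases h : t ∈ A
  · rw [Set.indicator_of_mem h, Set.indicator_of_mem h]
    change (one : L1 𝕜) t = _ at h3
    rw [h3, Set.indicator_of_mem (Set.mem_univ t)]
  · rw [Set.indicator_of_notMem h, Set.indicator_of_notMem h]

theorem lam_A : lam.real A = 1 / 2 := by
  have h : A ∩ Set.Icc (0 : ℝ) 1 = Set.Icc 0 (1 / 2) := by
    ext t
    simp only [A, Set.mem_inter_iff, Set.mem_Iic, Set.mem_Icc]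
    constructor
    · rintro ⟨h1, h2, h3⟩
      exact ⟨h2, h1⟩
    · rintro ⟨h1, h2⟩
      exact ⟨h2, h1, by linarith⟩
  rw [measureReal_def, Measure.restrict_apply hA, h, Real.volume_Icc]
  norm_num

theorem lam_Ac : lam.real Aᶜ = 1 / 2 := by
  have h := measureReal_compl (μ := lam) hA
  rw [lam_A] at h
  rw [h]
  have : lam.real Set.univ = 1 := by
    rw [measureReal_def, Measure.restrict_apply MeasurableSet.univ, Set.univ_inter, Real.volume_Icc]
    norm_num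
  rw [this]
  norm_num

theorem norm_R_one (A : Set ℝ) (hA : MeasurableSet A) : ‖R A hA (one : L1 𝕜)‖ = lam.real A := by
  rw [R_one, norm_indicatorConstLp (by simp) (by simp)]
  simp

theorem In_R_one (A : Set ℝ) (hA : MeasurableSet A) :
    In (R A hA (one : L1 𝕜)) = (lam.real A : 𝕜) := by
  rw [R_one, In_apply, integral_congr_ae indicatorConstLp_coeFn, integral_indicator_const _ hA]
  simp [RCLike.real_smul_eq_coe_mul]

theorem norm_P_one : ‖P (one : L1 𝕜)‖ = 1 := by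
  have hRA : ‖RA (one : L1 𝕜)‖ = 1 / 2 := by rw [RA, norm_R_one, lam_A]
  have hRB : ‖RB (one : L1 𝕜)‖ = 1 / 2 := by rw [RB, norm_R_one, lam_Ac]
  have hIA : In (RA (one : L1 𝕜)) = ((1 / 2 : ℝ) : 𝕜) := by rw [RA, In_R_one, lam_A]
  have hIB : In (RB (one : L1 𝕜)) = ((1 / 2 : ℝ) : 𝕜) := by rw [RB, In_R_one, lam_Ac]
  have h1 : psi1 (one : L1 𝕜) = ((5 / 4 : ℝ) : 𝕜) := by
    rw [psi1_apply, hIA, hIB]
    push_cast
    ring
  have h2 : psi2 (one : L1 𝕜) = ((-3 / 4 : ℝ) : 𝕜) := by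
    rw [psi2_apply, hIA, hIB]
    push_cast
    ring
  rw [norm_P, h1, h2, hRA, hRB, RCLike.norm_ofReal, RCLike.norm_ofReal]
  norm_num

theorem norm_one' : ‖(one : L1 𝕜)‖ = 1 := by
  rw [← norm_add_eq]
  have hRA : ‖RA (one : L1 𝕜)‖ = 1 / 2 := by rw [RA, norm_R_one, lam_A]
  have hRB : ‖RB (one : L1 𝕜)‖ = 1 / 2 := by rw [RB, norm_R_one, lam_Ac]
  rw [hRA, hRB]
  norm_num

theorem polyNorm_P : polyNorm (P : L1 𝕜 → L1 𝕜) = 1 := by
  have hbdd : ∀ r ∈ {r | ∃ x : L1 𝕜, ‖x‖ = 1 ∧ r = ‖P x‖}, r ≤ 1 := by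
    rintro r ⟨x, hx, rfl⟩
    exact norm_P_le x hx
  refine le_antisymm (csSup_le ⟨_, one, norm_one', rfl⟩ hbdd) ?_
  exact le_csSup ⟨1, hbdd⟩ ⟨one, norm_one', norm_P_one.symm⟩

theorem numIndex_le : numIndex 𝕜 (L1 𝕜) 2 ≤ 1 / 2 := by
  have h1 : numRadius 𝕜 (P : L1 𝕜 → L1 𝕜) ≤ 1 / 2 := by
    refine Real.sSup_le ?_ (by norm_num)
    rintro r ⟨f, x', hf, hx, hxf, rfl⟩
    exact numRadius_P_le f x' hf hx hxf
  have h0 : BddBelow {r | ∃ P ∈ HomPoly 𝕜 (L1 𝕜) 2, polyNorm P = 1 ∧ r = numRadius 𝕜 P} := by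
    refine ⟨0, ?_⟩
    rintro r ⟨Q, -, -, rfl⟩
    refine Real.sSup_nonneg ?_
    rintro r ⟨x, x', -, -, -, rfl⟩
    exact norm_nonneg _
  exact (csInf_le h0 ⟨P, homPoly_P, polyNorm_P, rfl⟩).trans h1

end

/-- The second polynomial numerical indices of the real and of the complex space `L_1[0,1]` are at
most `1/2`, so they are not equal to `1`. -/
theorem result : numIndex ℝ (L1 ℝ) 2 ≤ 1 / 2 ∧ numIndex ℂ (L1 ℂ) 2 ≤ 1 / 2 :=
  ⟨numIndex_le, numIndex_le⟩

end Pool.Agent.Results.MP_6cf06e_an.IntegrableFunctions
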