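import Mathlib

/-!
# The second polynomial numerical index of the real space `C[0,1]`
-/

namespace Pool.Agent.Results.MP_6cf06e_an.RealContinuous

section Defs

variable (𝕜 X : Type) [RCLike 𝕜] [NormedAddCommGroup X] [NormedSpace 𝕜 X]

/-- The continuous `k`-homogeneous polynomials `P : X → X`. -/
def HomPoly (k : ℕ) : Set (X → X) :=
  {P | ∃ A : ContinuousMultilinearMap 𝕜 (fun _ : Fin k => X) X, ∀ x, P x = A (fun _ => x)}

variable {X} in
/-- The norm of a polynomial: the supremum of `‖P x‖` over the unit sphere. -/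
noncomputable def polyNorm (P : X → X) : ℝ := sSup {r | ∃ x : X, ‖x‖ = 1 ∧ r = ‖P x‖}

variable {X} in
/-- The numerical radius of `P`: the supremum of `|x'(P x)|` over all `x` in the unit sphere of `X`
and `x'` in the unit sphere of the dual space with `x'(x) = 1`. -/
noncomputable def numRadius (P : X → X) : ℝ :=
  sSup {r | ∃ (x : X) (x' : StrongDual 𝕜 X), ‖x‖ = 1 ∧ ‖x'‖ = 1 ∧ x' x = 1 ∧ r = ‖x' (P x)‖}

/-- The `k`-th polynomial numerical index of `X`: the infimum of the numerical radii of the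
`k`-homogeneous polynomials of norm one. -/
noncomputable def numIndex (k : ℕ) : ℝ :=
  sInf {r | ∃ P ∈ HomPoly 𝕜 X k, polyNorm P = 1 ∧ r = numRadius 𝕜 P}

end Defs

/-- The real Banach space `C[0,1]`. -/
abbrev C01 : Type := C(unitInterval, ℝ)

/-- The polynomial `P f = f(0)^2 - f^2 / 2`. -/
noncomputable def P (f : C01) : C01 := ContinuousMap.const _ (f 0 ^ 2) - (1 / 2 : ℝ) • (f * f)

theorem P_apply (f : C01) (t : unitInterval) : P f t = f 0 ^ 2 - 1 / 2 * (f t * f t) := by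
  simp [P]

/-- A bounded bilinear map as a multilinear map. -/
noncomputable def bil {𝕜 X : Type} [RCLike 𝕜] [NormedAddCommGroup X] [NormedSpace 𝕜 X]
    (T : X →L[𝕜] X →L[𝕜] X) : ContinuousMultilinearMap 𝕜 (fun _ : Fin 2 => X) X where
  toFun v := T (v 0) (v 1)
  map_update_add' v i x y := by
    fin_cases i <;> simp
  map_update_smul' v i c x := by
    fin_cases i <;> simp
  cont := by fun_prop

theorem homPoly_P : P ∈ HomPoly ℝ C01 2 := by
  let e : StrongDual ℝ C01 := ContinuousMap.evalCLM ℝ (0 : unitInterval)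
  refine ⟨bil (e.smulRight (e.smulRight (1 : C01)) - (1 / 2 : ℝ) • ContinuousLinearMap.mul ℝ C01),
    fun f => ?_⟩
  ext t
  rw [P_apply]
  change f 0 ^ 2 - 1 / 2 * (f t * f t) = f 0 * (f 0 * 1) - 1 / 2 * (f t * f t)
  ring

theorem norm_P_le (f : C01) (hf : ‖f‖ = 1) : ‖P f‖ ≤ 1 := by
  refine (ContinuousMap.norm_le _ zero_le_one).2 fun t => ?_
  have h0 : |f 0| ≤ 1 := by simpa [hf] using f.norm_coe_le_norm 0
  have ht : |f t| ≤ 1 := by simpa [hf] using f.norm_coe_le_norm t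
  rw [P_apply, Real.norm_eq_abs, abs_le]
  have h1 := abs_le.1 h0
  have h2 := abs_le.1 ht
  constructor <;> nlinarith

theorem polyNorm_P : polyNorm P = 1 := by
  have hbdd : ∀ r ∈ {r | ∃ x : C01, ‖x‖ = 1 ∧ r = ‖P x‖}, r ≤ 1 := by
    rintro r ⟨x, hx, rfl⟩
    exact norm_P_le x hx
  let f : C01 := ⟨fun t => 1 - (t : ℝ), by fun_prop⟩
  have hf0 : f 0 = 1 := by simp [f]
  have hf1 : f 1 = 0 := by simp [f]
  have hfn : ‖f‖ = 1 := by
    refine le_antisymm ((ContinuousMap.norm_le _ zero_le_one).2 fun t => ?_) ?_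
    · have h1 := t.2.1
      have h2 := t.2.2
      change |1 - (t : ℝ)| ≤ 1
      rw [abs_le]
      constructor <;> linarith
    · simpa [hf0] using f.norm_coe_le_norm 0
  have hP : ‖P f‖ = 1 := by
    refine le_antisymm (norm_P_le f hfn) ?_
    have h1 := (P f).norm_coe_le_norm 1
    rw [P_apply, hf0, hf1] at h1
    simpa using h1
  refine le_antisymm (csSup_le ⟨_, f, hfn, rfl⟩ hbdd) ?_
  exact le_csSup ⟨1, hbdd⟩ ⟨f, hfn, hP.symm⟩

theorem numRadius_P_le (f : C01) (x' : StrongDual ℝ C01) (hf : ‖f‖ = 1) (hx : ‖x'‖ = 1)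
    (hxf : x' f = 1) : ‖x' (P f)‖ ≤ 1 / 2 := by
  have hle : ∀ g : C01, x' g ≤ ‖g‖ := fun g => by
    calc x' g ≤ ‖x' g‖ := le_abs_self _
      _ ≤ ‖x'‖ * ‖g‖ := x'.le_opNorm g
      _ = ‖g‖ := by rw [hx, one_mul]
  have hft : ∀ t, |f t| ≤ 1 := fun t => by simpa [hf] using f.norm_coe_le_norm t
  -- `x'` vanishes at `1 - f^2`
  have key : ∀ s : ℝ, |s| ≤ 1 / 2 → s * x' (1 - f * f) ≤ 0 := by
    intro s hs
    have h1 : ‖f + s • (1 - f * f)‖ ≤ 1 := by
      refine (ContinuousMap.norm_le _ zero_le_one).2 fun t => ?_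
      have h2 := abs_le.1 (hft t)
      have h3 := abs_le.1 hs
      simp only [ContinuousMap.add_apply, ContinuousMap.smul_apply, ContinuousMap.sub_apply,
        ContinuousMap.one_apply, ContinuousMap.mul_apply, smul_eq_mul, Real.norm_eq_abs]
      rw [abs_le]
      constructor <;> nlinarith [mul_nonneg (by linarith [h2.1] : (0 : ℝ) ≤ 1 + f t)
        (by linarith [h2.2] : (0 : ℝ) ≤ 1 - f t)]
    have h4 := (hle (f + s • (1 - f * f))).trans h1
    rw [map_add, map_smul, hxf, smul_eq_mul] at h4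
    linarith
  have h0 : x' (1 - f * f) = 0 := by
    have h1 := key (1 / 2) (by norm_num)
    have h2 := key (-(1 / 2)) (by norm_num)
    linarith
  have hff : |x' (f * f)| ≤ 1 := by
    have h1 : ‖f * f‖ ≤ 1 := by
      calc ‖f * f‖ ≤ ‖f‖ * ‖f‖ := norm_mul_le _ _
        _ = 1 := by rw [hf, one_mul]
    calc |x' (f * f)| ≤ ‖x'‖ * ‖f * f‖ := x'.le_opNorm _
      _ ≤ 1 := by rw [hx, one_mul]; exact h1
  have hP : P f = (f 0 ^ 2) • (1 - f * f) + (f 0 ^ 2 - 1 / 2) • (f * f) := by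
    ext t
    rw [P_apply]
    simp only [ContinuousMap.add_apply, ContinuousMap.smul_apply, ContinuousMap.sub_apply,
      ContinuousMap.one_apply, ContinuousMap.mul_apply, smul_eq_mul]
    ring
  rw [hP, map_add, map_smul, map_smul, h0, smul_zero, zero_add, smul_eq_mul, norm_mul,
    Real.norm_eq_abs, Real.norm_eq_abs]
  have hc : |f 0 ^ 2 - 1 / 2| ≤ 1 / 2 := by
    have h2 := abs_le.1 (hft 0)
    rw [abs_le]
    constructor <;> nlinarith
  calc |f 0 ^ 2 - 1 / 2| * |x' (f * f)| ≤ 1 / 2 * 1 := by gcongr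
    _ = 1 / 2 := mul_one _

/-- The second polynomial numerical index of the real space `C[0,1]` is at most `1/2`, so it is not
equal to `1`. -/
theorem result : numIndex ℝ C(unitInterval, ℝ) 2 ≤ 1 / 2 := by
  have h1 : numRadius ℝ P ≤ 1 / 2 := by
    refine Real.sSup_le ?_ (by norm_num)
    rintro r ⟨f, x', hf, hx, hxf, rfl⟩
    exact numRadius_P_le f x' hf hx hxf
  have h0 : BddBelow {r | ∃ P ∈ HomPoly ℝ C01 2, polyNorm P = 1 ∧ r = numRadius ℝ P} := by
    refine ⟨0, ?_⟩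
    rintro r ⟨Q, -, -, rfl⟩
    refine Real.sSup_nonneg ?_
    rintro r ⟨x, x', -, -, -, rfl⟩
    exact norm_nonneg _
  exact (csInf_le h0 ⟨P, homPoly_P, polyNorm_P, rfl⟩).trans h1

end Pool.Agent.Results.MP_6cf06e_an.RealContinuous
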